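import Mathlib

/-! A combinatorial space with the Schur property whose family fails property `(S*)`. -/

namespace Pool.Agent.Results.MP_8d662a_an.Counter

open Set Filter Topology
open scoped ENNReal NNReal

/-- the norm `‖x‖_𝓕`, with values in `[0, ∞]` -/
noncomputable def nrm (𝓕 : Set (Finset ℕ)) (x : ℕ → ℝ) : ℝ≥0∞ := ⨆ F ∈ 𝓕, ∑ k ∈ F, ‖x k‖ₑ

/-- the combinatorial space `X_𝓕` -/
def X (𝓕 : Set (Finset ℕ)) : Set (ℕ → ℝ) :=
  {x | Tendsto (fun n => nrm 𝓕 ((Ici n).indicator x)) atTop (𝓝 0)}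

/-- `f` restricts to a bounded linear functional on `X_𝓕` -/
def IsFunctional (𝓕 : Set (Finset ℕ)) (f : (ℕ → ℝ) → ℝ) : Prop :=
  (∀ x ∈ X 𝓕, ∀ y ∈ X 𝓕, f (x + y) = f x + f y) ∧ (∀ c : ℝ, ∀ x ∈ X 𝓕, f (c • x) = c * f x) ∧
    ∃ C : ℝ≥0, ∀ x ∈ X 𝓕, ‖f x‖ₑ ≤ C * nrm 𝓕 x

/-- `X_𝓕` has the Schur property -/
def Schur (𝓕 : Set (Finset ℕ)) : Prop :=
  ∀ (x : ℕ → ℕ → ℝ) (y : ℕ → ℝ), (∀ n, x n ∈ X 𝓕) → y ∈ X 𝓕 →
    (∀ f, IsFunctional 𝓕 f → Tendsto (fun n => f (x n)) atTop (𝓝 (f y))) →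
      Tendsto (fun n => nrm 𝓕 (x n - y)) atTop (𝓝 0)

/-- property `(S*)` -/
def SStar (𝓕 : Set (Finset ℕ)) : Prop :=
  ∀ F : ℕ → Finset ℕ, (∀ n, F n ∈ 𝓕) → (∀ m n, m ≠ n → Disjoint (F m) (F n)) →
    ∃ 𝒜 : Set (Set ℕ), 𝒜.Finite ∧ (∀ A ∈ 𝒜, ∀ E : Finset ℕ, ↑E ⊆ A → E ∈ 𝓕) ∧
      {n | ↑(F n) ⊆ ⋃₀ 𝒜}.Infinite

theorem sm {a z : ℕ → ℝ} (ha : ∀ k, |a k| ≤ 1) (hz : Summable fun k => |z k|) :
    Summable fun k => a k * z k :=
  hz.of_norm_bounded fun k => by
    rw [Real.norm_eq_abs, abs_mul]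
    exact mul_le_of_le_one_left (abs_nonneg _) (ha k)

theorem schur (z : ℕ → ℕ → ℝ) (hs : ∀ n, Summable fun k => |z n k|)
    (h : ∀ a : ℕ → ℝ, (∀ k, |a k| ≤ 1) → Tendsto (fun n => ∑' k, a k * z n k) atTop (𝓝 0)) :
    Tendsto (fun n => ∑' k, |z n k|) atTop (𝓝 0) := by
  classical
  let s : Bool → ℝ := fun b => if b then 1 else -1
  have s1 : ∀ b, |s b| ≤ 1 := fun b => by cases b <;> simp [s]
  have hc : ∀ k, Tendsto (fun n => z n k) atTop (𝓝 0) := fun k => by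
    refine (h (Pi.single k 1) fun j => ?_).congr fun n => ?_
    · by_cases hj : j = k <;> simp [hj]
    · rw [tsum_eq_single k fun j hj => by simp [hj]]
      simp
  refine tendsto_order.2 ⟨fun c hc => .of_forall fun n => hc.trans_le (tsum_nonneg fun k =>
    abs_nonneg _), fun ε hε => ?_⟩
  obtain ⟨N, a, ha⟩ := nonempty_interior_of_iUnion_of_closed
    (f := fun N => {a : ℕ → Bool | ∀ n ≥ N, ∑' k, s (a k) * z n k ≤ ε / 2}) (fun N => by
      simp only [ofPred_forall]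
      refine isClosed_iInter fun n => isClosed_iInter fun _ => isClosed_le
        (continuous_tsum (fun k => ?_) (hs n) fun k a => ?_) continuous_const
      · exact (continuous_of_discreteTopology (f := fun b => s b * z n k)).comp (continuous_apply k)
      · rw [Real.norm_eq_abs, abs_mul]
        exact mul_le_of_le_one_left (abs_nonneg _) (s1 _))
    (eq_univ_of_forall fun a => mem_iUnion.2 (eventually_atTop.1
      ((h _ fun k => s1 (a k)).eventually_le_const (half_pos hε))))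
  obtain ⟨φ, u, h1, h2⟩ := isOpen_pi_iff.1 isOpen_interior a ha
  have h3 : Tendsto (fun n => ∑ k ∈ φ, 2 * |z n k|) atTop (𝓝 0) := by
    simpa using tendsto_finsetSum φ fun k _ => (hc k).abs.const_mul 2
  filter_upwards [h3.eventually_lt_const (half_pos hε), eventually_ge_atTop N] with n h4 h5
  let b : ℕ → Bool := fun k => if k ∈ φ then a k else decide (0 ≤ z n k)
  have h6 := interior_subset (h2 (show b ∈ _ from fun k hk => by
    simpa [b, show k ∈ φ from hk] using (h1 k hk).2)) n h5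
  have h7 := hasSum_sum_of_ne_finset_zero (s := φ)
    (f := fun k => if k ∈ φ then 2 * |z n k| else 0) (L := .unconditional ℕ) fun k hk => if_neg hk
  rw [Finset.sum_congr rfl fun k hk => if_pos hk] at h7
  have h8 := hasSum_le (fun k => ?_) (hs n).hasSum ((sm (fun k => s1 (b k)) (hs n)).hasSum.add h7)
  · linarith
  · by_cases hk : k ∈ φ
    · have := neg_abs_le (z n k)
      have := le_abs_self (z n k)
      cases b k <;> simp [s, hk] <;> linarith
    · by_cases h0 : 0 ≤ z n k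
      · simp [s, b, hk, h0, abs_of_nonneg]
      · simp [s, b, hk, h0, abs_of_neg (not_le.1 h0)]

abbrev I : Type := {p : ℕ × Finset ℕ // p.2 ⊆ Finset.range (p.1 + 1) ∧ p.1 + 1 ≤ 2 * p.2.card}

instance : Countable I := Subtype.countable

instance : Infinite I := Infinite.of_injective
  (fun m => (⟨(m, Finset.range (m + 1)), subset_rfl, by simp⟩ : I))
  fun _ _ h => congrArg (·.1.1) h

variable (e : ℕ ≃ I)

def fam : Set (Finset ℕ) :=
  {F | (∃ m, ∀ k ∈ F, (e k).1.1 = m) ∨ ∃ j : ℕ → ℕ, ∀ k ∈ F, j (e k).1.1 ∈ (e k).1.2}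

theorem half (w : ℕ → ℝ≥0) (E : Finset ℕ) : ∃ F ∈ fam e, ∑ k ∈ E, w k ≤ 2 * ∑ k ∈ F, w k := by
  have h : ∀ m, ∃ j ∈ Finset.range (m + 1), ∑ k ∈ E with (e k).1.1 = m, w k ≤
      ∑ k ∈ E with (e k).1.1 = m, if j ∈ (e k).1.2 then 2 * w k else 0 := fun m => by
    refine Finset.exists_le_of_sum_le ⟨0, by simp⟩ ?_
    rw [Finset.sum_comm, Finset.sum_comm (s := Finset.range _)]
    refine Finset.sum_le_sum fun k hk => ?_
    obtain rfl := (Finset.mem_filter.1 hk).2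
    rw [Finset.sum_ite_mem, Finset.inter_eq_right.2 (e k).2.1, Finset.sum_const, Finset.sum_const,
      Finset.card_range, nsmul_eq_mul, nsmul_eq_mul, ← mul_assoc, mul_comm _ (2 : ℝ≥0)]
    exact mul_le_mul_left (by exact_mod_cast (e k).2.2) _
  choose j _ hj using h
  refine ⟨E.filter fun k => j (e k).1.1 ∈ (e k).1.2, .inr ⟨j, fun k hk =>
    (Finset.mem_filter.1 hk).2⟩, ?_⟩
  rw [Finset.mul_sum, Finset.sum_filter,
    ← Finset.sum_fiberwise_of_maps_to fun k hk => Finset.mem_image_of_mem (fun k => (e k).1.1) hk,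
    ← Finset.sum_fiberwise_of_maps_to (f := fun k => if j (e k).1.1 ∈ (e k).1.2 then 2 * w k else 0)
      fun k hk => Finset.mem_image_of_mem (fun k => (e k).1.1) hk]
  refine Finset.sum_le_sum fun m _ => (hj m).trans_eq (Finset.sum_congr rfl fun k hk => ?_)
  rw [(Finset.mem_filter.1 hk).2]

theorem le_two (x : ℕ → ℝ) : ∑' k, ‖x k‖ₑ ≤ 2 * nrm (fam e) x := by
  rw [ENNReal.tsum_eq_iSup_sum]
  refine iSup_le fun E => ?_
  obtain ⟨F, h1, h2⟩ := half e (fun k => ‖x k‖₊) E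
  refine le_trans ?_ (mul_le_mul_right (le_iSup₂ (f := fun F _ => ∑ k ∈ F, ‖x k‖ₑ) F h1) 2)
  simp only [enorm_eq_nnnorm]
  exact_mod_cast h2

theorem summ {x : ℕ → ℝ} (hx : x ∈ X (fam e)) : Summable fun k => |x k| := by
  obtain ⟨n, hn⟩ := (hx.eventually_lt_const zero_lt_one).exists
  have h1 : Summable fun k => ‖(Ici n).indicator x k‖₊ := ENNReal.tsum_coe_ne_top_iff_summable.1
    ((le_two e _).trans_lt (ENNReal.mul_lt_top (by simp) (hn.trans ENNReal.one_lt_top))).ne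
  refine (summable_nat_add_iff n).1 (((summable_nat_add_iff n).2
    (NNReal.summable_coe.2 h1)).congr fun k => ?_)
  simp

theorem sch : Schur (fam e) := fun x y hx hy h => by
  have h1 : ∀ n, Summable fun k => |(x n - y) k| := fun n =>
    ((summ e (hx n)).of_abs.sub (summ e hy).of_abs).abs
  have h2 := schur _ h1 fun a ha => by
    have h3 := h (fun x => ∑' k, a k * x k) ⟨fun x hx y hy => ?_, fun c x _ => ?_, 2, fun x _ => ?_⟩
    · refine (tendsto_sub_nhds_zero_iff.2 h3).congr fun n => ?_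
      rw [← (sm ha (summ e (hx n))).tsum_sub (sm ha (summ e hy))]
      simp [mul_sub]
    · rw [← (sm ha (summ e hx)).tsum_add (sm ha (summ e hy))]
      simp [mul_add]
    · rw [← tsum_mul_left]
      simp [mul_left_comm]
    · refine enorm_tsum_le_tsum_enorm.trans ((ENNReal.tsum_le_tsum fun k => ?_).trans (le_two e x))
      rw [enorm_mul]
      exact mul_le_of_le_one_left' (by simpa [Real.enorm_eq_ofReal_abs] using ha k)
  refine tendsto_of_tendsto_of_tendsto_of_le_of_le tendsto_const_nhds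
    (by simpa using ENNReal.tendsto_ofReal h2) (fun n => zero_le) fun n => iSup₂_le fun F _ => ?_
  refine (ENNReal.sum_le_tsum F).trans_eq ?_
  rw [ENNReal.ofReal_tsum_of_nonneg (fun k => abs_nonneg _) (by simpa using h1 n)]
  simp [Real.enorm_eq_ofReal_abs]

theorem fin (m : ℕ) : {k | (e k).1.1 = m}.Finite :=
  Finite.of_finite_image (f := fun k => (e k).1.2) ((Finset.range (m + 1)).powerset.finite_toSet.subset
    (by
      rintro _ ⟨k, rfl, rfl⟩
      exact Finset.mem_powerset.2 (e k).2.1))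
    fun _ ha _ hb h => e.injective (Subtype.ext (Prod.ext (ha.trans hb.symm) h))

theorem not_star : ¬ SStar (fam e) := fun h => by
  classical
  obtain ⟨𝒜, h1, h2, h3⟩ := h (fun m => (fin e m).toFinset)
    (fun m => .inl ⟨m, fun k hk => (fin e m).mem_toFinset.1 hk⟩) fun m n hmn =>
      Finset.disjoint_left.2 fun k hm hn => hmn
        (((fin e m).mem_toFinset.1 hm).symm.trans ((fin e n).mem_toFinset.1 hn))
  have h4 : ∀ A ∈ 𝒜, ∃ (m : ℕ) (j : ℕ → ℕ), ∀ k ∈ A, (e k).1.1 = m ∨ j (e k).1.1 ∈ (e k).1.2 := by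
    intro A hA
    by_cases h5 : ∃ m, ∀ k ∈ A, (e k).1.1 = m
    · obtain ⟨m, hm⟩ := h5
      exact ⟨m, id, fun k hk => .inl (hm k hk)⟩
    push Not at h5
    have h6 : ∀ m, ∃ j, ∀ k ∈ A, (e k).1.1 = m → j ∈ (e k).1.2 := fun m => by
      obtain ⟨l, l1, l2⟩ := h5 m
      have h7 : ∀ k ∈ A, (e k).1.1 = m → k ∈ insert l ((fin e m).toFinset.filter (· ∈ A)) :=
        fun k hk hm => by simp [hk, hm]
      rcases h2 A hA (insert l ((fin e m).toFinset.filter (· ∈ A))) (fun k hk => by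
        rcases Finset.mem_insert.1 hk with rfl | hk
        exacts [l1, (Finset.mem_filter.1 hk).2]) with ⟨n, hn⟩ | ⟨j, hj⟩
      · exact ⟨0, fun k hk hm => absurd ((hn l (Finset.mem_insert_self _ _)).trans
          ((hn k (h7 k hk hm)).symm.trans hm)) l2⟩
      · exact ⟨j m, fun k hk hm => hm ▸ hj k (h7 k hk hm)⟩
    choose j hj using h6
    exact ⟨0, j, fun k hk => .inr (hj _ k hk rfl)⟩
  choose! m j hj using h4
  obtain ⟨n, hn, h5⟩ := h3.exists_gt (h1.toFinset.sup m + 2 * h1.toFinset.card)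
  let S := Finset.range (n + 1) \ h1.toFinset.image (j · n)
  have h6 : n + 1 ≤ 2 * S.card := by
    have := Finset.le_card_sdiff (h1.toFinset.image (j · n)) (Finset.range (n + 1))
    have := Finset.card_image_le (s := h1.toFinset) (f := (j · n))
    simp only [Finset.card_range, S] at *
    omega
  obtain ⟨A, hA, hk⟩ := hn (show e.symm ⟨(n, S), Finset.sdiff_subset, h6⟩ ∈ _ by simp)
  have h7 := Finset.le_sup (f := m) (h1.mem_toFinset.2 hA)
  rcases hj A hA _ hk with h8 | h8 <;> rw [e.apply_symm_apply] at h8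
  · change n = _ at h8
    omega
  · exact (Finset.mem_sdiff.1 h8).2 (Finset.mem_image_of_mem _ (h1.mem_toFinset.2 hA))

theorem result : ∃ 𝓕 : Set (Finset ℕ), (∀ F ∈ 𝓕, ∀ E ⊆ F, E ∈ 𝓕) ∧ (∀ k, ∃ F ∈ 𝓕, k ∈ F) ∧
    Schur 𝓕 ∧ ¬ SStar 𝓕 := by
  obtain ⟨e⟩ : Nonempty (ℕ ≃ I) := nonempty_equiv_of_countable
  exact ⟨fam e, fun F hF E hE => hF.imp (fun ⟨m, h⟩ => ⟨m, fun k hk => h k (hE hk)⟩)
    fun ⟨j, h⟩ => ⟨j, fun k hk => h k (hE hk)⟩, fun k => ⟨{k}, .inl ⟨_, fun l hl => by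
      rw [Finset.mem_singleton.1 hl]⟩, Finset.mem_singleton_self k⟩, sch e, not_star e⟩

end Pool.Agent.Results.MP_8d662a_an.Counter
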